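import Pool.Agent.Helper132.CellColoring

/-!
# The largest Ramsey number of a permutation of size `n` is of order `n ^ 2`

`M(n) ≥ n ^ 2 / 2 ^ 40` for all `n ≥ 1`; in particular `M(n)` is not `o(n ^ 2)`.

The lower bound is attained, for `n = 2 ^ k`, by the bit reversal permutation. Given a permutation
`τ` of size at most `2 ^ (2 k - 38)`, cut its positions and its values into `K = 2 ^ (k - 18)`
strips of at most `2 ^ (k - 20)` entries. The entries are coloured according to a colouring of the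
`K × K` cells, which is found by a counting argument for hypergraph 2-colouring.
-/

set_option autoImplicit false

namespace Pool.Agent.Results.MP_78af93_co.Quadratic

open Finset Filter Asymptotics Pool.Agent.Helper132.PermRamsey

/-- The indices `f 0 < f 1 < ⋯ < f (n - 1)` form a copy of the permutation `π` in the
permutation `τ`. -/
def IsCopy {n N : ℕ} (π : Equiv.Perm (Fin n)) (τ : Equiv.Perm (Fin N)) (f : Fin n → Fin N) :
    Prop :=
  StrictMono f ∧ ∀ a b : Fin n, τ (f a) < τ (f b) ↔ π a < π b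

/-- Every 2-colouring `χ` of the entries of `τ` contains a monochromatic copy of `π`. -/
def Arrows {n N : ℕ} (τ : Equiv.Perm (Fin N)) (π : Equiv.Perm (Fin n)) : Prop :=
  ∀ χ : Fin N → Bool, ∃ f : Fin n → Fin N, IsCopy π τ f ∧ ∃ c : Bool, ∀ a, χ (f a) = c

/-- The Ramsey number of `π`: the least `N` such that some permutation `τ` of size `N` has the
property that every 2-colouring of its entries contains a monochromatic copy of `π`. -/
noncomputable def ramsey {n : ℕ} (π : Equiv.Perm (Fin n)) : ℕ :=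
  sInf {N : ℕ | ∃ τ : Equiv.Perm (Fin N), Arrows τ π}

/-- `M(n)`: the largest Ramsey number of a permutation of size `n`. -/
noncomputable def maxRamsey (n : ℕ) : ℕ :=
  univ.sup (fun π : Equiv.Perm (Fin n) => ramsey π)

/-! ### The inflation `π[π]` -/

/-- the inflation of `π` by `π`. -/
def infl {n : ℕ} (π : Equiv.Perm (Fin n)) : Equiv.Perm (Fin (n * n)) :=
  finProdFinEquiv.symm.trans ((Equiv.prodCongr π π).trans finProdFinEquiv)

lemma infl_apply {n : ℕ} (π : Equiv.Perm (Fin n)) (a b : Fin n) :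
    infl π (finProdFinEquiv (a, b)) = finProdFinEquiv (π a, π b) := by
  simp [infl]

lemma prod_lt_left {n : ℕ} {a a' : Fin n} (b b' : Fin n) (h : a < a') :
    (finProdFinEquiv (a, b) : Fin (n * n)) < finProdFinEquiv (a', b') := by
  rw [Fin.lt_def, finProdFinEquiv_apply_val, finProdFinEquiv_apply_val]
  simp only
  have h1 : (a : ℕ) + 1 ≤ a' := h
  have h2 := b.2
  have h3 : n * ((a : ℕ) + 1) ≤ n * a' := Nat.mul_le_mul_left _ h1
  rw [mul_add, mul_one] at h3
  omega

lemma prod_lt_right {n : ℕ} (a : Fin n) {b b' : Fin n} :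
    (finProdFinEquiv (a, b) : Fin (n * n)) < finProdFinEquiv (a, b') ↔ b < b' := by
  rw [Fin.lt_def, finProdFinEquiv_apply_val, finProdFinEquiv_apply_val, Fin.lt_def]
  simp only
  omega

lemma arrows_infl {n : ℕ} (π : Equiv.Perm (Fin n)) : Arrows (infl π) π := by
  intro χ
  by_cases h : ∃ a : Fin n, ∀ b : Fin n, χ (finProdFinEquiv (a, b)) = true
  · obtain ⟨a, ha⟩ := h
    refine ⟨fun b => finProdFinEquiv (a, b), ⟨?_, ?_⟩, true, ha⟩
    · intro b b' hb
      exact (prod_lt_right a).2 hb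
    · intro b b'
      rw [infl_apply, infl_apply]
      exact prod_lt_right (π a)
  · push Not at h
    choose g hg using h
    refine ⟨fun a => finProdFinEquiv (a, g a), ⟨?_, ?_⟩, false, fun a => ?_⟩
    · intro a a' ha
      exact prod_lt_left _ _ ha
    · intro a a'
      rw [infl_apply, infl_apply]
      rcases lt_trichotomy (π a) (π a') with h | h | h
      · exact iff_of_true (prod_lt_left _ _ h) h
      · have h' := π.injective h
        subst h'
        exact iff_of_false (lt_irrefl _) (lt_irrefl _)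
      · exact iff_of_false (prod_lt_left _ _ h).not_gt h.not_gt
    · simpa using hg a

lemma exists_ramsey {n : ℕ} (π : Equiv.Perm (Fin n)) :
    ∃ τ : Equiv.Perm (Fin (ramsey π)), Arrows τ π :=
  Nat.sInf_mem (s := {N : ℕ | ∃ τ : Equiv.Perm (Fin N), Arrows τ π}) ⟨n * n, infl π, arrows_infl π⟩

lemma ramsey_le {n : ℕ} (π : Equiv.Perm (Fin n)) : ramsey π ≤ n * n :=
  Nat.sInf_le ⟨infl π, arrows_infl π⟩

lemma maxRamsey_le (n : ℕ) : maxRamsey n ≤ n * n := Finset.sup_le fun π _ => ramsey_le π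

lemma le_maxRamsey {n : ℕ} (π : Equiv.Perm (Fin n)) : ramsey π ≤ maxRamsey n :=
  Finset.le_sup (f := fun π : Equiv.Perm (Fin n) => ramsey π) (mem_univ π)

/-! ### Monotonicity -/

/-- append `d` new largest entries in increasing order. -/
def app {n : ℕ} (d : ℕ) (π : Equiv.Perm (Fin n)) : Equiv.Perm (Fin (n + d)) :=
  finSumFinEquiv.symm.trans ((Equiv.sumCongr π (Equiv.refl (Fin d))).trans finSumFinEquiv)

lemma app_apply {n : ℕ} (d : ℕ) (π : Equiv.Perm (Fin n)) (a : Fin n) :
    app d π (Fin.castAdd d a) = Fin.castAdd d (π a) := by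
  simp [app]

lemma ramsey_app {n : ℕ} (d : ℕ) (π : Equiv.Perm (Fin n)) : ramsey π ≤ ramsey (app d π) := by
  obtain ⟨τ, hτ⟩ := exists_ramsey (app d π)
  refine Nat.sInf_le ⟨τ, fun χ => ?_⟩
  obtain ⟨f, ⟨hf1, hf2⟩, c, hc⟩ := hτ χ
  refine ⟨fun a => f (Fin.castAdd d a), ⟨?_, ?_⟩, c, fun a => hc _⟩
  · intro a b hab
    exact hf1 (by rw [Fin.lt_def]; exact hab)
  · intro a b
    rw [hf2, app_apply, app_apply, Fin.lt_def, Fin.lt_def]
    rfl

/-! ### The lower bound -/

/-- If the cells of every `K × K` array with small row and column sums can be coloured suitably,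
then no permutation of size at most `K * M` arrows `π`. -/
lemma not_arrows_aux {n N K M : ℕ} (hM0 : 0 < M) (hNK : N ≤ K * M) (π : Equiv.Perm (Fin n))
    (hex : ∀ w : Fin K → Fin K → ℕ, (∀ i, ∑ j, w i j ≤ M) → (∀ j, ∑ i, w i j ≤ M) →
      ∃ R : Finset (Fin K × Fin K), ∀ i j : Fin n → Fin K, Monotone i → Monotone j →
        (∀ a b, pcnt π i j a b ≤ w a b) →
        (∃ x, (i x, j (π x)) ∈ R) ∧ (∃ x, (i x, j (π x)) ∉ R))
    (τ : Equiv.Perm (Fin N)) : ¬ Arrows τ π := by
  intro hτ
  have hcell : ∀ y : ℕ, y < N → y / M < K := fun y hy => by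
    rw [Nat.div_lt_iff_lt_mul hM0]
    omega
  -- the strips
  let cx : Fin N → Fin K := fun x => ⟨x / M, hcell x x.2⟩
  let rx : Fin N → Fin K := fun x => ⟨(τ x : ℕ) / M, hcell _ (τ x).2⟩
  let w : Fin K → Fin K → ℕ := fun a b => (univ.filter (fun x => cx x = a ∧ rx x = b)).card
  have hstrip : ∀ a : Fin K, (univ.filter (fun x => cx x = a)).card ≤ M := by
    intro a
    calc (univ.filter (fun x => cx x = a)).card ≤ (Ico ((a : ℕ) * M) ((a : ℕ) * M + M)).card := by
          refine card_le_card_of_injOn (fun x => (x : ℕ)) ?_ ?_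
          · intro x hx
            rw [mem_coe, mem_filter] at hx
            have h1 : (x : ℕ) / M = a := congrArg Fin.val hx.2
            rw [mem_coe, mem_Ico, ← h1]
            have h2 := Nat.div_mul_le_self (x : ℕ) M
            have h3 := Nat.lt_div_mul_add (a := (x : ℕ)) hM0
            exact ⟨h2, h3⟩
          · intro x _ y _ h
            exact Fin.ext h
      _ = M := by simp
  have hstrip' : ∀ b : Fin K, (univ.filter (fun x => rx x = b)).card ≤ M := by
    intro b
    calc (univ.filter (fun x => rx x = b)).card ≤ (Ico ((b : ℕ) * M) ((b : ℕ) * M + M)).card := by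
          refine card_le_card_of_injOn (fun x => (τ x : ℕ)) ?_ ?_
          · intro x hx
            rw [mem_coe, mem_filter] at hx
            have h1 : (τ x : ℕ) / M = b := congrArg Fin.val hx.2
            rw [mem_coe, mem_Ico, ← h1]
            have h2 := Nat.div_mul_le_self (τ x : ℕ) M
            have h3 := Nat.lt_div_mul_add (a := (τ x : ℕ)) hM0
            exact ⟨h2, h3⟩
          · intro x _ y _ h
            exact τ.injective (Fin.ext h)
      _ = M := by simp
  have hrow : ∀ a, ∑ b, w a b ≤ M := by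
    intro a
    have := card_eq_sum_card_fiberwise (f := rx) (s := univ.filter (fun x => cx x = a))
      (t := univ) (fun _ _ => mem_univ _)
    refine le_trans (le_of_eq ?_) (hstrip a)
    rw [this]
    refine sum_congr rfl fun b _ => ?_
    simp only [w]
    rw [filter_filter]
  have hcol : ∀ b, ∑ a, w a b ≤ M := by
    intro b
    have := card_eq_sum_card_fiberwise (f := cx) (s := univ.filter (fun x => rx x = b))
      (t := univ) (fun _ _ => mem_univ _)
    refine le_trans (le_of_eq ?_) (hstrip' b)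
    rw [this]
    refine sum_congr rfl fun a _ => ?_
    simp only [w]
    rw [filter_filter]
    congr 1
    ext x
    simp only [mem_filter, mem_univ, true_and]
    tauto
  obtain ⟨S, hS⟩ := hex w hrow hcol
  obtain ⟨f, ⟨hf1, hf2⟩, c, hc⟩ := hτ (fun x => decide ((cx x, rx x) ∈ S))
  let i : Fin n → Fin K := fun p => cx (f p)
  let j : Fin n → Fin K := fun v => rx (f (π.symm v))
  have hi : Monotone i := by
    intro p q hpq
    have h1 : f p ≤ f q := hf1.monotone hpq
    exact Fin.mk_le_mk.2 (Nat.div_le_div_right h1)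
  have hj : Monotone j := by
    intro u v huv
    have h1 : τ (f (π.symm u)) ≤ τ (f (π.symm v)) := by
      by_contra hcon
      rw [not_le, hf2, Equiv.apply_symm_apply, Equiv.apply_symm_apply] at hcon
      exact absurd hcon (not_lt.2 huv)
    exact Fin.mk_le_mk.2 (Nat.div_le_div_right h1)
  have hjx : ∀ x, j (π x) = rx (f x) := by
    intro x
    simp only [j, Equiv.symm_apply_apply]
  have hw : ∀ a b, pcnt π i j a b ≤ w a b := by
    intro a b
    refine card_le_card_of_injOn f ?_ ?_
    · intro x hx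
      rw [mem_coe, mem_filter] at hx
      rw [mem_coe, mem_filter]
      refine ⟨mem_univ _, hx.2.1, ?_⟩
      rw [← hjx]
      exact hx.2.2
    · intro x _ y _ h
      exact hf1.injective h
  obtain ⟨⟨x, hx⟩, y, hy⟩ := hS i j hi hj hw
  rw [hjx] at hx hy
  have h1 : decide ((cx (f x), rx (f x)) ∈ S) = true := by
    rw [decide_eq_true_eq]; exact hx
  have h2 : decide ((cx (f y), rx (f y)) ∈ S) = false := by
    rw [decide_eq_false_iff_not]; exact hy
  have h3 := hc x
  have h4 := hc y
  rw [h1] at h3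
  rw [h2, ← h3] at h4
  exact absurd h4 (by decide)

/-- No permutation of size at most `2 ^ (2 k - 38)` arrows the bit reversal permutation. -/
lemma not_arrows (k N : ℕ) (hk : 20 ≤ k) (hN : N ≤ 2 ^ (2 * k - 38)) (τ : Equiv.Perm (Fin N)) :
    ¬ Arrows τ (bitrev k) := by
  have hM0 : 0 < 2 ^ (k - 20) := by positivity
  have hn : 2 ^ k = 2 ^ 20 * 2 ^ (k - 20) := by
    rw [← pow_add]; congr 1; omega
  have hNK : N ≤ (4 * 2 ^ (k - 20)) * 2 ^ (k - 20) := by
    refine hN.trans (le_of_eq ?_)
    have h4 : (4 : ℕ) = 2 ^ 2 := by norm_num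
    rw [h4, ← pow_add, ← pow_add]
    congr 1
    omega
  exact not_arrows_aux hM0 hNK (bitrev k)
    (fun w hrow hcol => exists_coloring k _ _ hM0 rfl hn w hrow hcol) τ

lemma ramsey_bitrev (k : ℕ) (hk : 20 ≤ k) : 2 ^ (2 * k - 38) ≤ ramsey (bitrev k) := by
  obtain ⟨τ, hτ⟩ := exists_ramsey (bitrev k)
  by_contra hcon
  exact not_arrows k _ hk (not_le.1 hcon).le τ hτ

/-- `M(n) ≥ n ^ 2 / 2 ^ 40`. -/
lemma maxRamsey_lower (n : ℕ) (hn : 1 ≤ n) : n ^ 2 ≤ 2 ^ 40 * maxRamsey n := by
  rcases Nat.lt_or_ge n (2 ^ 20) with hn2 | hn2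
  · have h1 : 1 ≤ maxRamsey n := by
      refine le_trans ?_ (le_maxRamsey (1 : Equiv.Perm (Fin n)))
      by_contra hcon
      have h0 : ramsey (1 : Equiv.Perm (Fin n)) = 0 := by omega
      obtain ⟨τ, hτ⟩ := exists_ramsey (1 : Equiv.Perm (Fin n))
      obtain ⟨f, -⟩ := hτ (fun _ => true)
      have := (f ⟨0, hn⟩).2
      omega
    calc n ^ 2 ≤ (2 ^ 20) ^ 2 := Nat.pow_le_pow_left hn2.le 2
      _ = 2 ^ 40 * 1 := by norm_num
      _ ≤ _ := Nat.mul_le_mul_left _ h1
  · obtain ⟨k, -, h1, h2⟩ := exists_pow n (n + 1) hn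
      ((Nat.lt_two_pow_self (n := n)).le.trans (Nat.pow_le_pow_right (by norm_num) (by omega)))
    have hk : 20 ≤ k := by
      by_contra hcon
      have h3 : 2 ^ k ≤ 2 ^ 19 := Nat.pow_le_pow_right (by norm_num) (by omega)
      norm_num at h3 hn2
      omega
    have h3 : ramsey (bitrev k) ≤ maxRamsey n := by
      obtain ⟨d, rfl⟩ := Nat.exists_eq_add_of_le h1
      exact (ramsey_app d _).trans (le_maxRamsey _)
    have h4 := (ramsey_bitrev k hk).trans h3
    calc n ^ 2 ≤ (2 * 2 ^ k) ^ 2 := Nat.pow_le_pow_left h2.le 2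
      _ = 2 ^ 40 * 2 ^ (2 * k - 38) := by
          rw [← pow_succ', ← pow_mul, ← pow_add]
          congr 1
          omega
      _ ≤ _ := Nat.mul_le_mul_left _ h4

/-- The Ramsey number of every permutation is attained, and there is a constant `c > 0` with
`M(n) ≥ c n ^ 2` for every `n ≥ 1`. In particular `limsup M(n) / n ^ 2 ≥ c > 0`, so that
`M(n)` is not `o(n ^ 2)`. -/
theorem result :
    (∀ (n : ℕ) (π : Equiv.Perm (Fin n)), ∃ τ : Equiv.Perm (Fin (ramsey π)), Arrows τ π) ∧
    ∃ c : ℝ, 0 < c ∧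
      (∀ n : ℕ, 1 ≤ n → c * (n : ℝ) ^ 2 ≤ (maxRamsey n : ℝ)) ∧
      c ≤ limsup (fun n : ℕ => (maxRamsey n : ℝ) / (n : ℝ) ^ 2) atTop ∧
      ¬ (fun n : ℕ => (maxRamsey n : ℝ)) =o[atTop] (fun n : ℕ => (n : ℝ) ^ 2) := by
  have key : ∀ n : ℕ, 1 ≤ n → (1 / 2 ^ 40 : ℝ) * (n : ℝ) ^ 2 ≤ (maxRamsey n : ℝ) := by
    intro n hn
    have h1 : ((n ^ 2 : ℕ) : ℝ) ≤ ((2 ^ 40 * maxRamsey n : ℕ) : ℝ) := by
      exact_mod_cast maxRamsey_lower n hn
    push_cast at h1
    rw [div_mul_eq_mul_div, one_mul, div_le_iff₀ (by positivity)]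
    linarith
  have key2 : ∀ n : ℕ, 1 ≤ n → (1 / 2 ^ 40 : ℝ) ≤ (maxRamsey n : ℝ) / (n : ℝ) ^ 2 := by
    intro n hn
    have hn0 : (0 : ℝ) < n := by exact_mod_cast hn
    rw [le_div_iff₀ (by positivity)]
    exact key n hn
  refine ⟨fun n π => exists_ramsey π, 1 / 2 ^ 40, by positivity, key, ?_, ?_⟩
  · refine le_limsup_of_frequently_le ?_ ?_
    · apply Eventually.frequently
      filter_upwards [eventually_ge_atTop 1] with n hn
      exact key2 n hn
    · refine ⟨1, ?_⟩
      rw [eventually_map]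
      filter_upwards [eventually_ge_atTop 1] with n hn
      have hn0 : (0 : ℝ) < n := by exact_mod_cast hn
      rw [div_le_one (by positivity), sq]
      exact_mod_cast maxRamsey_le n
  · intro h
    rw [isLittleO_iff] at h
    have h1 := h (c := 1 / 2 ^ 41) (by positivity)
    obtain ⟨n, hn1, hn2⟩ := (h1.and (eventually_ge_atTop 1)).exists
    have h2 := key n hn2
    have hn0 : (0 : ℝ) < n := by exact_mod_cast hn2
    rw [Real.norm_of_nonneg (Nat.cast_nonneg _), Real.norm_of_nonneg (by positivity)] at hn1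
    have h3 : (0 : ℝ) < (n : ℝ) ^ 2 := by positivity
    have h4 := h2.trans hn1
    have h5 : (1 / 2 ^ 40 : ℝ) ≤ 1 / 2 ^ 41 := le_of_mul_le_mul_right h4 h3
    norm_num at h5

end Pool.Agent.Results.MP_78af93_co.Quadratic
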